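import Pool.Agent.helper32.EX.SpecA

set_option autoImplicit false

namespace Pool.Agent.EX

theorem DM3 (hSGN : SGN_stmt) (hDM2 : DM2_stmt) : DM3_stmt := by
  intro n C _ θ β hθ hβ
  obtain ⟨t1, t2⟩ := hDM2 C θ hθ
  obtain ⟨b1, b2⟩ := hDM2 C β hβ
  have h1 : Q C β.1 θ.1 = ∑ i, θ.1 i * Q C β.1 (sm C i).1 := Q_expand β.1 θ.1
  have h2 : Q C β.1 β.1 = ∑ i, β.1 i * Q C β.1 (sm C i).1 := Q_expand β.1 β.1
  have h3 : ∃ i, 0 < Q C β.1 (sm C i).1 := by
    by_contra hcon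
    push Not at hcon
    have h4 : ∑ i, β.1 i * Q C β.1 (sm C i).1 = 0 := by
      refine Finset.sum_eq_zero fun i _ => ?_
      have h5 : Q C β.1 (sm C i).1 = 0 := le_antisymm (hcon i) (hβ i)
      rw [h5, mul_zero]
    rw [← h2, β.2] at h4
    norm_num at h4
  have h4 : 0 < Q C β.1 θ.1 := by
    rw [h1]
    obtain ⟨i, hi⟩ := h3
    refine Finset.sum_pos' (fun j _ => mul_nonneg (t1 j).le (hβ j)) ⟨i, Finset.mem_univ i, ?_⟩
    exact mul_pos (t1 i) hi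
  have hsymm : Q C θ.1 β.1 = Q C β.1 θ.1 := Q_comm θ.1 β.1
  have h5 := (bd θ β).2
  rcases eq_or_ne (Q C θ.1 β.1) 2 with h6 | h6
  · exact Q_eq_two h6
  · exfalso
    have h7 : Q C θ.1 β.1 = 1 := by omega
    have h8 : Q C (θ.1 - β.1) (θ.1 - β.1) = 2 := by
      rw [Q_sub_self, h7]
      norm_num
    rcases hSGN C (⟨θ.1 - β.1, h8⟩ : Rt C) with h9 | h9
    · have h10 := b2 _ h9
      change 0 ≤ Q C β.1 (θ.1 - β.1) at h10
      rw [Q_sub_right, ← hsymm, h7, β.2] at h10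
      norm_num at h10
    · have h10 := t2 _ h9
      rw [neg_val] at h10
      change 0 ≤ Q C θ.1 (-(θ.1 - β.1)) at h10
      rw [Q_neg_right, Q_sub_right, h7, θ.2] at h10
      norm_num at h10

end Pool.Agent.EX
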