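import Pool.Agent.helper32.EX.SpecD

set_option autoImplicit false

namespace Pool.Agent.EX

theorem NIN (hMCJ : MCJ_stmt) (hSIM : SIM_stmt) : NIN_stmt := by
  intro n C _ F _ i m hm hmono u hu
  have key : UI C F i ≤ (UI C F i).comap (MulAut.conj m).toMonoidHom := by
    unfold UI
    rw [Subgroup.closure_le]
    rintro x ⟨α, t, hα, hne, rfl⟩
    show m * xl α t * m⁻¹ ∈ UI C F i
    obtain ⟨c, -, hc⟩ := hMCJ C F m (rfe (sm C i)) hm hmono α
    rw [hc t, rfe_apply]
    refine Subgroup.subset_closure ⟨rf (sm C i) α, c * t, hSIM C α i hα hne, fun h => ?_, rfl⟩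
    have h1 : α = rf (sm C i) (sm C i) := by
      have h2 := rf_rf (sm C i) α
      rw [h] at h2
      exact h2.symm
    have h3 := hα i
    rw [h1] at h3
    have h4 : (rf (sm C i) (sm C i)).1 i = -1 := by
      show (sm C i).1 i - (Q C (sm C i).1 (sm C i).1 • (sm C i).1) i = -1
      rw [(sm C i).2, Pi.smul_apply]
      have h5 : (sm C i).1 i = 1 := by
        show (Pi.single i 1 : Fin n → ℤ) i = 1
        rw [Pi.single_eq_same]
      rw [h5]
      norm_num
    rw [h4] at h3
    norm_num at h3
  exact key hu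

end Pool.Agent.EX
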